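import Mathlib
import Pool.Agent.H15.UG2

set_option autoImplicit false

namespace Pool.Agent.Results.MP_fbee13_lc.Equiv

theorem result :
    (∀ Z : Set ℝ, (∀ z ∈ Z, -z ∈ Z) →
      @MeasurableSet ℝ
        (MeasurableSpace.generateFrom {S : Set ℝ | ∃ G : AddSubgroup ℝ, (G : Set ℝ) = S}) Z) ↔
      (⊤ : MeasurableSpace ℝ).prod (⊤ : MeasurableSpace ℝ) = ⊤ :=
  ⟨Pool.Agent.H15.UG.fwd, Pool.Agent.H15.UG.bwd⟩

end Pool.Agent.Results.MP_fbee13_lc.Equiv
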