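import Mathlib
import Pool.Agent.H15.UG2

set_option autoImplicit false

namespace Pool.Agent.Results.MP_fbee13_lc.NoUnderMeasure

theorem result (μ : @MeasureTheory.Measure ℝ ⊤) (h1 : μ Set.univ = 1)
    (h0 : ∀ x : ℝ, μ {x} = 0) :
    ∃ Z : Set ℝ, (∀ z ∈ Z, -z ∈ Z) ∧
      ¬ @MeasurableSet ℝ
        (MeasurableSpace.generateFrom {S : Set ℝ | ∃ G : AddSubgroup ℝ, (G : Set ℝ) = S}) Z := by
  by_contra hc
  apply Pool.Agent.H15.UG.not_of_measure μ h1 h0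
  apply Pool.Agent.H15.UG.fwd
  intro Z hZ
  by_contra hn
  exact hc ⟨Z, hZ, hn⟩

end Pool.Agent.Results.MP_fbee13_lc.NoUnderMeasure
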