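import Mathlib
import Pool.Agent.H15.UG2

set_option autoImplicit false

namespace Pool.Agent.Results.MP_fbee13_lc.YesUnderCH

theorem result (h : Cardinal.continuum.{0} = Cardinal.aleph 1) :
    ∀ Z : Set ℝ, (∀ z ∈ Z, -z ∈ Z) →
      @MeasurableSet ℝ
        (MeasurableSpace.generateFrom {S : Set ℝ | ∃ G : AddSubgroup ℝ, (G : Set ℝ) = S}) Z :=
  Pool.Agent.H15.UG.bwd (Pool.Agent.H15.UG.of_CH h)

end Pool.Agent.Results.MP_fbee13_lc.YesUnderCH
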